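import Pool.Agent.H36.PX.ChiZ
import Pool.Agent.H36.PX.HHb
import Pool.Agent.H36.PX.HPd
import Pool.Agent.H36.PX.HPz
import Pool.Agent.H36.PX.Proper
import Pool.Agent.H36.PX.DblEx
import Pool.Agent.H36.PX.Exist
import Pool.Agent.H36.NX.FH
import Pool.Agent.H94.NC.PiM
import Pool.Agent.H94.NC.Conv
import Pool.Agent.H94.NC.FExt

/-!
# The counterexample in every odd characteristic: assembly
-/

set_option autoImplicit false

open NC

noncomputable section

namespace H36.PX

open H36.NX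

section

variable {p : ℕ} {k : Type} [Field k] {t : k} {R : Type} [CommRing R] [Algebra k R]
  {C : PRing p k t R} {K : Type} [Field K] [Algebra k K] {D : Type} [CommRing D] [Algebra k D]

/-- the Euler characteristic of `HC(A; M)` vanishes in `k` for every correspondence `M` -/
theorem chi_corr (W : DblRing k C D) (E : PRoot p k t K) (hI : IndexP p k t) [Fact p.Prime]
    [CharP k p] (ht : t ≠ 0) (M : ZBim (AAz C)) (hM : M.IsCorr) : SD.chi (HC M.bm.b) = 0 :=
  chi_HC_zero C E hI (PF_of_RPf (PF_diag W E ht) M.bm hM.rpf)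

theorem chi_diagA (W : DblRing k C D) (E : PRoot p k t K) (hI : IndexP p k t) [Fact p.Prime]
    [CharP k p] (ht : t ≠ 0) : SD.chi (HC (BMod.diag (AA C)).b) = 0 :=
  chi_HC_zero C E hI (PF_diag W E ht)

theorem chi_diagB (W : DblRing k C D) (E : PRoot p k t K) (hI : IndexP p k t) [Fact p.Prime]
    [CharP k p] (ht : t ≠ 0) : SD.chi (HC (AA C).diag) = 0 := chi_diagA W E hI ht

theorem chi_diagC (W : DblRing k C D) (E : PRoot p k t K) (hI : IndexP p k t) [Fact p.Prime]
    [CharP k p] (ht : t ≠ 0) : SD.chi (HC (AAz C).toDGA.diag) = 0 := chi_diagB W E hI ht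

/-- the Hochschild complex of the example has finite dimensional homology -/
theorem finH_diag (W : DblRing k C D) (E : PRoot p k t K) [Fact p.Prime] [CharP k p]
    (ht : t ≠ 0) : (HC (AAz C).toDGA.diag).FinH :=
  finH_HC_of_PF (SD.coh_finite_iff.1 (proper_AA C)) (X := BMod.diag (AA C)) (PF_diag W E ht)

end

/-- the example with all its properties -/
theorem exists_ex (p : ℕ) [hp : Fact p.Prime] (hp3 : 3 ≤ p) (k : Type) [Field k] [CharP k p]
    (t : k) (ht : t ≠ 0) (hI : IndexP p k t) :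
    ∃ A : ZDGA k, PF A.toDGA (BMod.diag A.toDGA) ∧
      FiniteDimensional k A.toSD.Coh ∧ FiniteDimensional k A.cyc.HT ∧
      FiniteDimensional k (A.HP 0) ∧ ((Module.finrank k (A.HP 0) : ℕ) : k) ≠ 0 ∧
      SD.chi (HC A.toDGA.diag) = 0 ∧
      ∀ M : ZBim A, M.IsCorr → SD.chi (HC M.bm.b) = 0 := by
  obtain ⟨R, _, _, ⟨C⟩⟩ := exists_pRing hp3 k t
  obtain ⟨K, _, _, ⟨E⟩⟩ := exists_pRoot p k hp3 t hI
  obtain ⟨D, _, _, ⟨W⟩⟩ := exists_dblRing k C
  have hdom : IsDomain R := C.isDomain E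
  let j : R →ₐ[k] FractionRing R := IsScalarTower.toAlgHom k R (FractionRing R)
  have hj : Function.Injective j := IsFractionRing.injective R (FractionRing R)
  have hfin : (HC (AAz C).toDGA.diag).FinH := finH_diag W E ht
  obtain ⟨a, b, ha, hb, -, -, hab⟩ := hh_even C j E hj ht
  have h2 := HP_zero_le_two (AAz C) hfin a b ha hb hab
  exact ⟨AAz C, PF_diag W E ht, proper_AA C, fin_HT (AAz C) hfin, h2.1,
    HP_zero_neP p hp3 (AAz C) hfin a b ha hb hab (AAz_HP_ne_zero C),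
    chi_diagC W E hI ht,
    fun M hM => chi_corr W E hI ht M hM⟩

/-- the final statement for one field -/
def Counterexample (k : Type) [Field k] : Prop :=
  ∃ A : ZDGA k, A.IsSaturated ∧
    (∀ M : ZBim A, M.IsCorr → Function.Bijective M.iM.HPs) ∧
    (∀ (F : Type) [Field F] [Algebra F k], ¬ A.AlgSub F A.piPlus ∧ ¬ A.AlgSub F A.piMinus) ∧
    (∀ (F : Type) [Field F] [Algebra k F], ¬ A.AlgExt F A.piPlus ∧ ¬ A.AlgExt F A.piMinus)

theorem counterexample_of (p : ℕ) [Fact p.Prime] (hp3 : 3 ≤ p) (k : Type) [Field k] [CharP k p]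
    (t : k) (ht : t ≠ 0) (hI : IndexP p k t)
    (hperf : ∀ A : ZDGA k, PF A.toDGA (BMod.diag A.toDGA) → A.diag.IsPerfect)
    (hlef : ∀ A : DGA k, PF A (BMod.diag A) → A.toSD.FinH → ∀ (M : BMod A A) (I : Type),
      SemiFree M.b I → RPf M.b.r → Lefschetz M) : Counterexample k := by
  obtain ⟨A, hPF, hfin, hHT, hHP, hne, hchi0, hchi⟩ := exists_ex p hp3 k t ht hI
  have hL : ∀ M : ZBim A, M.IsCorr → Lefschetz M.bm := by
    intro M hM
    obtain ⟨I, ⟨hS⟩⟩ := hM.semiFree
    exact hlef A.toDGA hPF (SD.coh_finite_iff.1 hfin) M.bm I hS hM.rpf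
  have h := pi_not_alg A hne hchi0 (strP_corr hL hchi)
  exact ⟨A, ⟨hperf A hPF, hfin⟩, fun M hM => HPs_bij M.iM (M.iM_HT_bij hM), h.1, h.2⟩

end H36.PX
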